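import Mathlib

/-!
# The exponents
-/

set_option autoImplicit false
set_option linter.all false

open Finset

namespace Pool.Agent.X317.Pow

/-- the base -/
def base (h : ℕ) : ℕ := 8 * (h + 1) * (h + 1)

/-- the steps -/
def step (h : ℕ) (t : Fin 10) : ℕ := if t = 0 then 0 else base h ^ (t : ℕ)

/-- the places of the nonfaces -/
def place (h : ℕ) (t : Fin 10) : ℕ := base h ^ 10 + 3 - (h - 1) * step h t

/-- the exponents of the pure generators -/
def IsExp (h a : ℕ) : Prop :=
  (∃ t, a = step h t) ∨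
    ∃ t, a = place h t + 1 ∨ a = place h t + 2 ∨ a + 1 = place h t ∨ a + 2 = place h t

/-- the sums of `m` exponents -/
def SA (h : ℕ) : ℕ → ℕ → Prop
  | 0, w => w = 0
  | m + 1, w => ∃ a x, IsExp h a ∧ SA h m x ∧ w = a + x

theorem digits (B : ℤ) (hB : 0 < B) : ∀ (m : ℕ) (x : Fin m → ℤ), (∀ i, |x i| < B) →
    ∑ i, x i * B ^ (i : ℕ) = 0 → ∀ i, x i = 0 := by
  intro m
  induction m with
  | zero => intro x _ _ i; exact i.elim0
  | succ m ih =>
    intro x hx hs
    rw [Fin.sum_univ_succ] at hs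
    have h1 : ∑ i : Fin m, x i.succ * B ^ ((i.succ : Fin (m + 1)) : ℕ) =
        B * ∑ i : Fin m, x i.succ * B ^ (i : ℕ) := by
      rw [Finset.mul_sum]
      refine Finset.sum_congr rfl fun i _ => ?_
      rw [Fin.val_succ, pow_succ]
      ring
    rw [h1, Fin.val_zero, pow_zero, mul_one] at hs
    have h2 : x 0 = 0 := by
      refine Int.eq_zero_of_abs_lt_dvd (m := B) ?_ (hx 0)
      exact ⟨- ∑ i : Fin m, x i.succ * B ^ (i : ℕ), by linarith⟩
    rw [h2, zero_add] at hs
    have h3 := (mul_eq_zero.1 hs).resolve_left hB.ne'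
    have h4 := ih (fun i => x i.succ) (fun i => hx _) h3
    intro i
    induction i using Fin.cases with
    | zero => exact h2
    | succ i => exact h4 i

variable {h : ℕ}

theorem step_le (hh : 1 ≤ h) (t : Fin 10) : step h t ≤ base h ^ 9 := by
  unfold step
  split_ifs
  · exact Nat.zero_le _
  · exact Nat.pow_le_pow_right (by unfold base; positivity) (by omega)

theorem base_bound (hh : 1 ≤ h) : 2 * (h - 1) * base h ^ 9 + 6 ≤ base h ^ 10 := by
  have h1 : base h ^ 10 = base h * base h ^ 9 := by rw [pow_succ]; ring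
  have h2 : 1 ≤ base h ^ 9 := Nat.one_le_pow _ _ (by unfold base; positivity)
  have h3 : 2 * (h - 1) + 6 ≤ base h := by
    unfold base
    nlinarith [Nat.sub_le h 1]
  calc 2 * (h - 1) * base h ^ 9 + 6 ≤ 2 * (h - 1) * base h ^ 9 + 6 * base h ^ 9 := by omega
    _ = (2 * (h - 1) + 6) * base h ^ 9 := by ring
    _ ≤ base h * base h ^ 9 := Nat.mul_le_mul_right _ h3
    _ = base h ^ 10 := h1.symm

theorem step_mul_le (hh : 1 ≤ h) (t : Fin 10) :
    2 * ((h - 1) * step h t) + 6 ≤ base h ^ 10 := by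
  have h1 := base_bound hh
  have h2 := Nat.mul_le_mul_left (2 * (h - 1)) (step_le hh t)
  rw [← mul_assoc]
  omega

theorem place_add (hh : 1 ≤ h) (t : Fin 10) :
    place h t + (h - 1) * step h t = base h ^ 10 + 3 := by
  have := step_mul_le hh t
  unfold place
  omega

theorem place_zero : place h 0 = base h ^ 10 + 3 := by
  unfold place step
  rw [if_pos rfl, mul_zero, Nat.sub_zero]

theorem place_ge (hh : 1 ≤ h) (t : Fin 10) : place h 0 + 5 ≤ 2 * place h t := by
  have h1 := step_mul_le hh t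
  have h2 := place_add hh t
  rw [place_zero]
  omega

theorem place_le (t : Fin 10) : place h t ≤ place h 0 := by
  rw [place_zero]
  unfold place
  omega

theorem SA_zero (m : ℕ) : SA h m 0 := by
  induction m with
  | zero => rfl
  | succ m ih => exact ⟨0, 0, Or.inl ⟨0, by unfold step; rw [if_pos rfl]⟩, ih, rfl⟩

theorem SA_add {m m' w w' : ℕ} (hw : SA h m w) (hw' : SA h m' w') : SA h (m' + m) (w' + w) := by
  induction m' generalizing w' with
  | zero =>
    have h1 : w' = 0 := hw'
    rw [h1, zero_add, zero_add]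
    exact hw
  | succ m' ih =>
    obtain ⟨a, x, ha, hx, rfl⟩ := hw'
    rw [Nat.succ_add]
    exact ⟨a, x + w, ha, ih hx, by rw [add_assoc]⟩

theorem SA_mul (t : Fin 10) (m : ℕ) : SA h m (m * step h t) := by
  induction m with
  | zero =>
    rw [zero_mul]
    exact SA_zero 0
  | succ m ih => exact ⟨step h t, m * step h t, Or.inl ⟨t, rfl⟩, ih, by ring⟩

theorem SA_le (hh : 1 ≤ h) {m w : ℕ} (hw : SA h m w) : w ≤ m * (place h 0 + 2) := by
  induction m generalizing w with
  | zero =>
    have h1 : w = 0 := hw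
    omega
  | succ m ih =>
    obtain ⟨a, x, ha, hx, rfl⟩ := hw
    have h1 := ih hx
    have h2 : a ≤ place h 0 + 2 := by
      rcases ha with ⟨t, rfl⟩ | ⟨t, ht⟩
      · have h3 := step_le hh t
        have h4 : base h ^ 9 ≤ base h ^ 10 :=
          Nat.pow_le_pow_right (by unfold base; positivity) (by omega)
        rw [place_zero]
        omega
      · have := place_le (h := h) t
        omega
    have h3 : (m + 1) * (place h 0 + 2) = m * (place h 0 + 2) + (place h 0 + 2) := by ring
    omega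

theorem rep (hh : 1 ≤ h) {m w : ℕ} (hw : SA h m w) : ∃ (n c : Fin 10 → ℕ) (ε : ℤ),
    ∑ s, n s + ∑ s, c s = m ∧
    (w : ℤ) = ∑ s, (n s : ℤ) * step h s + ∑ s, (c s : ℤ) * place h s + ε ∧
    |ε| ≤ 2 * ∑ s, (c s : ℤ) ∧ (∑ s, c s = 0 → ε = 0) ∧ (∑ s, c s = 1 → ε ≠ 0) ∧
    ∀ t, 0 < c t → ∃ (m' x : ℕ) (o : ℤ), m = m' + 1 ∧ SA h m' x ∧
      (w : ℤ) = place h t + o + x ∧ (o = 1 ∨ o = 2 ∨ o = -1 ∨ o = -2) := by
  induction m generalizing w with
  | zero =>
    have h1 : w = 0 := hw
    refine ⟨0, 0, 0, by simp, by simp [h1], by simp, fun _ => rfl, fun h => ?_, fun t ht => ?_⟩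
    · simp at h
    · simp at ht
  | succ m ih =>
    obtain ⟨a, x, ha, hx, rfl⟩ := hw
    obtain ⟨n, c, ε, h1, h2, h3, h4, h5, h6⟩ := ih hx
    have key : ∀ (f : Fin 10 → ℕ) (t : Fin 10) (F : Fin 10 → ℤ),
        ∑ s, (((f + Pi.single t 1 : Fin 10 → ℕ) s : ℕ) : ℤ) * F s =
          ∑ s, (f s : ℤ) * F s + F t := by
      intro f t F
      have h7 : ∀ s, (((f + Pi.single t 1 : Fin 10 → ℕ) s : ℕ) : ℤ) * F s =
          (f s : ℤ) * F s + if s = t then F s else 0 := by
        intro s
        rw [Pi.add_apply]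
        by_cases hs : s = t
        · rw [hs, Pi.single_eq_same, if_pos rfl]
          push_cast
          ring
        · rw [Pi.single_eq_of_ne hs, if_neg hs]
          push_cast
          ring
      rw [Finset.sum_congr rfl fun s _ => h7 s, Finset.sum_add_distrib,
        Finset.sum_ite_eq' univ t, if_pos (Finset.mem_univ _)]
    have key' : ∀ (f : Fin 10 → ℕ) (t : Fin 10),
        ∑ s, (f + Pi.single t 1 : Fin 10 → ℕ) s = ∑ s, f s + 1 := by
      intro f t
      have h7 := key f t 1
      simp only [Pi.one_apply, mul_one] at h7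
      exact_mod_cast h7
    rcases ha with ⟨t, rfl⟩ | ⟨t, ht⟩
    · refine ⟨n + Pi.single t 1, c, ε, ?_, ?_, h3, h4, h5, fun t' ht' => ?_⟩
      · rw [key']
        omega
      · rw [key n t (fun s => (step h s : ℤ))]
        push_cast
        rw [h2]
        ring
      · obtain ⟨m', y, o, e1, e2, e3, e4⟩ := h6 t' ht'
        refine ⟨m, step h t + y, o, rfl, ?_, ?_, e4⟩
        · rw [e1]
          exact ⟨step h t, y, Or.inl ⟨t, rfl⟩, e2, rfl⟩
        · push_cast
          rw [e3]
          ring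
    · obtain ⟨o, ho, ho'⟩ : ∃ o : ℤ, (a : ℤ) = place h t + o ∧
          (o = 1 ∨ o = 2 ∨ o = -1 ∨ o = -2) := by
        rcases ht with ht | ht | ht | ht
        · exact ⟨1, by omega, by omega⟩
        · exact ⟨2, by omega, by omega⟩
        · exact ⟨-1, by omega, by omega⟩
        · exact ⟨-2, by omega, by omega⟩
      refine ⟨n, c + Pi.single t 1, ε + o, ?_, ?_, ?_, fun h7 => ?_, fun h7 => ?_,
        fun t' ht' => ?_⟩
      · rw [key']
        omega
      · rw [key c t (fun s => (place h s : ℤ))]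
        push_cast
        rw [h2, ho]
        ring
      · have h7 := key c t 1
        simp only [Pi.one_apply, mul_one] at h7
        rw [h7]
        rw [abs_le] at h3 ⊢
        constructor <;> omega
      · rw [key'] at h7
        omega
      · rw [key'] at h7
        rw [h4 (by omega)]
        omega
      · by_cases htt : t' = t
        · rw [htt]
          refine ⟨m, x, o, rfl, hx, ?_, ho'⟩
          push_cast
          rw [ho]
        · rw [Pi.add_apply, Pi.single_eq_of_ne htt, add_zero] at ht'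
          obtain ⟨m', y, o', e1, e2, e3, e4⟩ := h6 t' ht'
          refine ⟨m, a + y, o', rfl, ?_, ?_, e4⟩
          · rw [e1]
            exact ⟨a, y, Or.inr ⟨t, ht⟩, e2, rfl⟩
          · push_cast
            rw [e3]
            ring

theorem dvd_step (t : Fin 10) : (base h : ℤ) ∣ step h t := by
  unfold step
  split_ifs with ht
  · exact ⟨0, by simp⟩
  · have h1 : (t : ℕ) ≠ 0 := fun h => ht (Fin.ext h)
    exact_mod_cast dvd_pow_self (base h) h1

/-- **The place of `Q` is a hole in all powers.** -/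
theorem hole (hh : 1 ≤ h) (m : ℕ) : ¬ SA h m (place h 0) := by
  intro hw
  obtain ⟨n, c, ε, h1, h2, h3, h4, h5, h6⟩ := rep hh hw
  have hB : 32 ≤ base h := by
    unfold base
    nlinarith
  have hplace : ∀ s, (place h s : ℤ) = (base h : ℤ) ^ 10 + 3 - (h - 1 : ℕ) * step h s := by
    intro s
    have := place_add hh s
    have h7 : ((place h s : ℕ) : ℤ) + (h - 1 : ℕ) * (step h s : ℕ) = (base h : ℤ) ^ 10 + 3 := by
      exact_mod_cast this
    linarith
  have hd1 : (base h : ℤ) ∣ ∑ s, (n s : ℤ) * step h s :=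
    Finset.dvd_sum fun s _ => (dvd_step s).mul_left _
  have hd2 : (base h : ℤ) ∣ (base h : ℤ) ^ 10 := dvd_pow_self _ (by norm_num)
  have h0 : (place h 0 : ℤ) = (base h : ℤ) ^ 10 + 3 := by
    rw [place_zero]
    push_cast
    ring
  rcases Nat.lt_or_ge (∑ s, c s) 2 with hk | hk
  · rcases Nat.lt_or_ge (∑ s, c s) 1 with hk | hk
    · have hk0 : ∑ s, c s = 0 := by omega
      have hc : ∀ s, c s = 0 := fun s => (Finset.sum_eq_zero_iff.1 hk0) s (Finset.mem_univ _)
      rw [h4 hk0, h0] at h2
      simp only [hc, Nat.cast_zero, zero_mul, Finset.sum_const_zero, add_zero] at h2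
      have h7 : (base h : ℤ) ∣ 3 := by
        have h8 : (3 : ℤ) = ∑ s, (n s : ℤ) * step h s - (base h : ℤ) ^ 10 := by linarith
        rw [h8]
        exact dvd_sub hd1 hd2
      have h8 := Int.le_of_dvd (by norm_num) h7
      omega
    · have hk1 : ∑ s, c s = 1 := by omega
      have hε := h5 hk1
      have h7 : ∑ s, (c s : ℤ) * place h s = ∑ s, (c s : ℤ) * ((base h : ℤ) ^ 10 + 3) -
          ∑ s, (c s : ℤ) * ((h - 1 : ℕ) * step h s) := by
        rw [← Finset.sum_sub_distrib]
        refine Finset.sum_congr rfl fun s _ => ?_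
        rw [hplace]
        ring
      have h8 : ∑ s, (c s : ℤ) * ((base h : ℤ) ^ 10 + 3) = (base h : ℤ) ^ 10 + 3 := by
        rw [← Finset.sum_mul]
        have : ∑ s, (c s : ℤ) = 1 := by exact_mod_cast hk1
        rw [this, one_mul]
      have hd3 : (base h : ℤ) ∣ ∑ s, (c s : ℤ) * ((h - 1 : ℕ) * step h s) :=
        Finset.dvd_sum fun s _ => ((dvd_step s).mul_left _).mul_left _
      rw [h7, h8, h0] at h2
      have h9 : (base h : ℤ) ∣ ε := by
        have h10 : ε = ∑ s, (c s : ℤ) * ((h - 1 : ℕ) * step h s) -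
          ∑ s, (n s : ℤ) * step h s := by linarith
        rw [h10]
        exact dvd_sub hd3 hd1
      refine hε (Int.eq_zero_of_abs_lt_dvd h9 ?_)
      have h10 : ∑ s, (c s : ℤ) = 1 := by exact_mod_cast hk1
      rw [h10] at h3
      omega
  · have h7 : ∑ s, (c s : ℤ) * (place h 0 + 5) ≤ ∑ s, (c s : ℤ) * (2 * place h s) := by
      refine Finset.sum_le_sum fun s _ => ?_
      refine mul_le_mul_of_nonneg_left ?_ (by positivity)
      exact_mod_cast place_ge hh s
    rw [← Finset.sum_mul] at h7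
    have h8 : ∑ s, (c s : ℤ) * (2 * place h s) = 2 * ∑ s, (c s : ℤ) * place h s := by
      rw [Finset.mul_sum]
      exact Finset.sum_congr rfl fun s _ => by ring
    have h9 : (0 : ℤ) ≤ ∑ s, (n s : ℤ) * (step h s : ℤ) := by
      refine Finset.sum_nonneg fun s _ => ?_
      exact mul_nonneg (Int.natCast_nonneg _) (Int.natCast_nonneg _)
    have h10 : (2 : ℤ) ≤ ∑ s, (c s : ℤ) := by exact_mod_cast hk
    rw [h8] at h7
    rw [abs_le] at h3
    have h11 : (0 : ℤ) ≤ place h 0 := Int.natCast_nonneg _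
    have h12 : 0 ≤ (∑ s, (c s : ℤ) - 2) * (place h 0 + 1) :=
      mul_nonneg (by linarith) (by linarith)
    nlinarith

/-- **The coincidences before the power `h` are harmless.** -/
theorem coincide (hh : 1 ≤ h) {m w w' : ℕ} (hm : m + 1 < h) (hw : SA h m w) (hw' : SA h m w')
    {t t' : Fin 10} (htt : t ≠ t') (he : place h t + w = place h t' + w') :
    SA h (m + 1) (place h t + w) := by
  obtain ⟨n, c, ε, h1, h2, h3, h4, h5, h6⟩ := rep hh hw
  obtain ⟨n', c', ε', h1', h2', h3', h4', h5', h6'⟩ := rep hh hw'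
  have hplace : ∀ s, (place h s : ℤ) = (base h : ℤ) ^ 10 + 3 - (h - 1 : ℕ) * step h s := by
    intro s
    have := place_add hh s
    have h7 : ((place h s : ℕ) : ℤ) + (h - 1 : ℕ) * (step h s : ℕ) = (base h : ℤ) ^ 10 + 3 := by
      exact_mod_cast this
    linarith
  set K : ℤ := ∑ s, (c s : ℤ) with hK
  set K' : ℤ := ∑ s, (c' s : ℤ) with hK'
  let δ : Fin 10 → Fin 10 → ℤ := fun t s => if s = t then 1 else 0
  let x : Fin 10 → ℤ := fun s =>
    ((n s : ℤ) - n' s) - (h - 1 : ℕ) * ((c s : ℤ) - c' s + δ t s - δ t' s)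
  have hδ : ∀ t, ∑ s, δ t s * (step h s : ℤ) = step h t := by
    intro t
    simp only [δ, ite_mul, one_mul, zero_mul]
    rw [Finset.sum_ite_eq' univ t, if_pos (Finset.mem_univ _)]
  have hsum : (K - K') * (base h : ℤ) ^ 10 + (3 * (K - K') + ε - ε') +
      ∑ s, x s * (step h s : ℤ) = 0 := by
    have e0 : (place h t : ℤ) + w = place h t' + w' := by exact_mod_cast he
    have e1 : ∀ c : Fin 10 → ℕ, ∑ s, (c s : ℤ) * place h s =
        (∑ s, (c s : ℤ)) * ((base h : ℤ) ^ 10 + 3) -
          (h - 1 : ℕ) * ∑ s, (c s : ℤ) * step h s := by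
      intro c
      rw [Finset.sum_mul, Finset.mul_sum, ← Finset.sum_sub_distrib]
      refine Finset.sum_congr rfl fun s _ => ?_
      rw [hplace]
      ring
    have e2 : ∑ s, x s * (step h s : ℤ) = ∑ s, (n s : ℤ) * step h s -
        ∑ s, (n' s : ℤ) * step h s - (h - 1 : ℕ) * (∑ s, (c s : ℤ) * step h s -
          ∑ s, (c' s : ℤ) * step h s + step h t - step h t') := by
      rw [← hδ t, ← hδ t', ← Finset.sum_sub_distrib, ← Finset.sum_sub_distrib,
        ← Finset.sum_add_distrib, ← Finset.sum_sub_distrib, Finset.mul_sum,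
        ← Finset.sum_sub_distrib]
      refine Finset.sum_congr rfl fun s _ => ?_
      simp only [x]
      ring
    rw [h2, h2', e1, e1, hplace, hplace] at e0
    rw [e2]
    linarith
  have hcs : ∀ (f : Fin 10 → ℕ) s, f s ≤ ∑ s, f s := fun f s =>
    Finset.single_le_sum (fun i _ => Nat.zero_le _) (Finset.mem_univ s)
  have hKn : K = ((∑ s, c s : ℕ) : ℤ) := by rw [hK]; push_cast; rfl
  have hKn' : K' = ((∑ s, c' s : ℕ) : ℤ) := by rw [hK']; push_cast; rfl
  have hBh : ((h : ℤ) + 1) * (h + 1) * 8 = base h := by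
    unfold base
    push_cast
    ring
  have hδ01 : ∀ t s, δ t s = 0 ∨ δ t s = 1 := by
    intro t s
    simp only [δ]
    split_ifs
    · exact Or.inr rfl
    · exact Or.inl rfl
  have hx : ∀ s, |x s| < base h := by
    intro s
    have b1 := hcs n s
    have b2 := hcs n' s
    have b3 := hcs c s
    have b4 := hcs c' s
    have b5 : |((c s : ℤ) - c' s + δ t s - δ t' s)| ≤ h := by
      rw [abs_le]
      rcases hδ01 t s with h7 | h7 <;> rcases hδ01 t' s with h8 | h8 <;> rw [h7, h8] <;>
        constructor <;> omega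
    have b6 : |(n s : ℤ) - n' s| ≤ h := by
      rw [abs_le]
      constructor <;> omega
    have b7 : |(((h - 1 : ℕ) : ℤ)) * ((c s : ℤ) - c' s + δ t s - δ t' s)| ≤ h * h := by
      rw [abs_mul]
      refine mul_le_mul ?_ b5 (abs_nonneg _) (Int.natCast_nonneg _)
      rw [abs_of_nonneg (Int.natCast_nonneg _)]
      omega
    calc |x s| ≤ |(n s : ℤ) - n' s| + |(((h - 1 : ℕ) : ℤ)) * ((c s : ℤ) - c' s + δ t s - δ t' s)| :=
          abs_sub _ _
      _ ≤ h + h * h := add_le_add b6 b7
      _ < base h := by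
        rw [← hBh]
        have hhn : (0 : ℤ) ≤ h := Int.natCast_nonneg _
        nlinarith only [hhn]
  have hK0 : 0 ≤ K := by rw [hKn]; exact Int.natCast_nonneg _
  have hK0' : 0 ≤ K' := by rw [hKn']; exact Int.natCast_nonneg _
  have hKh : K ≤ h := by
    rw [hKn]
    exact_mod_cast (by omega : ∑ s, c s ≤ h)
  have hKh' : K' ≤ h := by
    rw [hKn']
    exact_mod_cast (by omega : ∑ s, c' s ≤ h)
  have hhn : (0 : ℤ) ≤ h := Int.natCast_nonneg _
  have h7h : 7 * (h : ℤ) < base h := by
    rw [← hBh]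
    nlinarith only [hhn]
  have hx0 : |3 * (K - K') + ε - ε'| < base h := by
    rw [abs_le] at h3 h3'
    rw [abs_lt]
    constructor
    · linarith
    · linarith
  have hx10 : |K - K'| < base h := by
    rw [abs_lt]
    constructor
    · linarith
    · linarith
  let y : Fin 10 → ℤ := fun s => if s = 0 then 3 * (K - K') + ε - ε' else x s
  have hy := digits (base h) (by unfold base; positivity) 11
    (Fin.snoc (α := fun _ => ℤ) y (K - K')) (fun i => by
      induction i using Fin.lastCases with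
      | last => rw [Fin.snoc_last]; exact hx10
      | cast i =>
        rw [Fin.snoc_castSucc]
        simp only [y]
        split_ifs
        · exact hx0
        · exact hx i) (by
      rw [Fin.sum_univ_castSucc]
      simp only [Fin.snoc_castSucc, Fin.snoc_last, Fin.val_last, Fin.val_castSucc]
      have h7 : ∑ i : Fin 10, y i * (base h : ℤ) ^ (i : ℕ) =
          (3 * (K - K') + ε - ε') + ∑ s, x s * (step h s : ℤ) := by
        rw [Fin.sum_univ_succ, Fin.sum_univ_succ (fun s => x s * (step h s : ℤ))]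
        have h8 : y 0 = 3 * (K - K') + ε - ε' := if_pos rfl
        have h9 : step h 0 = 0 := by unfold step; rw [if_pos rfl]
        have h11 : ∀ i : Fin 9, y i.succ * (base h : ℤ) ^ ((i.succ : Fin 10) : ℕ) =
            x i.succ * (step h i.succ : ℤ) := by
          intro i
          have h10 : y i.succ = x i.succ := if_neg (Fin.succ_ne_zero i)
          rw [h10]
          unfold step
          rw [if_neg (Fin.succ_ne_zero i)]
          push_cast
          rfl
        rw [h8, h9, Fin.val_zero, pow_zero, mul_one, Nat.cast_zero, mul_zero, zero_add,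
          Finset.sum_congr rfl fun i _ => h11 i]
      rw [h7]
      linarith)
  have hKK : K - K' = 0 := by
    have := hy (Fin.last 10)
    rwa [Fin.snoc_last] at this
  have hx' : ∀ s, s ≠ 0 → x s = 0 := by
    intro s hs
    have := hy s.castSucc
    rw [Fin.snoc_castSucc] at this
    simp only [y] at this
    rwa [if_neg hs] at this
  have hz : ∀ s, s ≠ 0 → (c s : ℤ) - c' s + δ t s - δ t' s = 0 := by
    intro s hs
    have h7 := hx' s hs
    simp only [x] at h7
    have b1 := hcs n s
    have b2 := hcs n' s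
    by_contra h8
    have h9 : (1 : ℤ) ≤ |(c s : ℤ) - c' s + δ t s - δ t' s| := Int.one_le_abs h8
    have h10 : |(n s : ℤ) - n' s| =
        ((h - 1 : ℕ) : ℤ) * |(c s : ℤ) - c' s + δ t s - δ t' s| := by
      have h11 : (n s : ℤ) - n' s =
        ((h - 1 : ℕ) : ℤ) * ((c s : ℤ) - c' s + δ t s - δ t' s) := by linarith
      rw [h11, abs_mul, abs_of_nonneg (Int.natCast_nonneg _ : (0 : ℤ) ≤ ((h - 1 : ℕ) : ℤ))]
    have h11 : |(n s : ℤ) - n' s| ≤ ((h - 1 : ℕ) : ℤ) - 1 := by
      rw [abs_le]
      constructor <;> omega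
    have h12 : ((h - 1 : ℕ) : ℤ) ≤ ((h - 1 : ℕ) : ℤ) * |(c s : ℤ) - c' s + δ t s - δ t' s| := by
      have h12 : (0 : ℤ) ≤ ((h - 1 : ℕ) : ℤ) := Int.natCast_nonneg _
      nlinarith only [h12, h9]
    linarith
  have hall : ∀ s, (c s : ℤ) - c' s + δ t s - δ t' s = 0 := by
    intro s
    by_cases hs : s = 0
    · have h7 : ∑ s, ((c s : ℤ) - c' s + δ t s - δ t' s) = 0 := by
        have h8 : ∀ t, ∑ s, δ t s = 1 := by
          intro t
          simp only [δ]
          rw [Finset.sum_ite_eq' univ t, if_pos (Finset.mem_univ _)]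
        rw [Finset.sum_sub_distrib, Finset.sum_add_distrib, Finset.sum_sub_distrib, h8, h8]
        linarith
      rw [Finset.sum_eq_single s] at h7
      · exact h7
      · intro b _ hb
        exact hz b (fun h => hb (h.trans hs.symm))
      · intro h
        exact absurd (Finset.mem_univ _) h
    · exact hz s hs
  have hpos : 0 < c t' := by
    have h7 := hall t'
    have h8 : δ t t' = 0 := if_neg (Ne.symm htt)
    have h9 : δ t' t' = 1 := if_pos rfl
    rw [h8, h9] at h7
    omega
  obtain ⟨m', y', o, e1, e2, e3, e4⟩ := h6 t' hpos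
  have hp := place_ge hh t
  have hp' := place_ge hh t'
  have hp0 : 3 ≤ place h 0 := by
    rw [place_zero]
    omega
  have fin : ∀ a a' : ℕ, IsExp h a → IsExp h a' → a + (a' + y') = place h t + w →
      SA h (m + 1) (place h t + w) := by
    intro a a' ha ha' hs
    rw [← hs]
    refine ⟨a, a' + y', ha, ?_, rfl⟩
    rw [e1]
    exact ⟨a', y', ha', e2, rfl⟩
  rcases e4 with rfl | rfl | rfl | rfl
  · refine fin (place h t - 1) (place h t' + 2) (Or.inr ⟨t, by omega⟩) (Or.inr ⟨t', by omega⟩) ?_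
    omega
  · refine fin (place h t + 1) (place h t' + 1) (Or.inr ⟨t, by omega⟩) (Or.inr ⟨t', by omega⟩) ?_
    omega
  · refine fin (place h t + 1) (place h t' - 2) (Or.inr ⟨t, by omega⟩) (Or.inr ⟨t', by omega⟩) ?_
    omega
  · refine fin (place h t - 1) (place h t' - 1) (Or.inr ⟨t, by omega⟩) (Or.inr ⟨t', by omega⟩) ?_
    omega

end Pool.Agent.X317.Pow
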