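import Mathlib
import Pool.Agent.X317.Cone.Graded

/-!
# Integral cycles of cones and links
-/

set_option autoImplicit false
set_option linter.all false

open Finset Pool.Agent.H677R3.EdgeReg Pool.Agent.X317.Cone

namespace Pool.Agent.X317.Pow

variable {n : ℕ} {k : Type*} [Field k]

theorem cdL_cst (k : Type*) [Field k] (a : Finset (Fin n) → ℤ) :
    cdL k (cst k a) = cst k (cdL ℤ a) := by
  funext T
  exact cd_cst k a T

theorem Bc_le_spn (k : Type*) [Field k] {Kf : Finset (Fin n) → Prop}
    (hdown : ∀ T j, j ∉ T → Kf (insert j T) → Kf T) (i : ℕ) :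
    Bc k Kf i ≤ spn k (Zc ℤ Kf i) := by
  classical
  rintro _ ⟨g, hg, rfl⟩
  have h1 : g = ∑ T, g T • cst k (Pi.single T (1 : ℤ)) := by
    funext S
    rw [Finset.sum_apply, Finset.sum_eq_single S]
    · rw [Pi.smul_apply, cst, Pi.single_eq_same, Int.cast_one, smul_eq_mul, mul_one]
    · intro T _ hT
      rw [Pi.smul_apply, cst, Pi.single_eq_of_ne (Ne.symm hT), Int.cast_zero, smul_zero]
    · intro h
      exact absurd (Finset.mem_univ _) h
  rw [h1, map_sum]
  refine Submodule.sum_mem _ fun T _ => ?_
  rw [map_smul]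
  by_cases hT : g T = 0
  · rw [hT, zero_smul]
    exact Submodule.zero_mem _
  refine Submodule.smul_mem _ _ ?_
  rw [cdL_cst]
  refine Submodule.subset_span ⟨_, Bc_le hdown i ?_, rfl⟩
  refine ⟨Pi.single T 1, ?_, rfl⟩
  intro S hS
  have h2 : S = T := by
    by_contra h
    exact hS (Pi.single_eq_of_ne h _)
  rw [h2]
  exact hg T hT

theorem hv_mem {A : Type*} [CommRing A] {Kf Kg : Finset (Fin n) → Prop} {i : ℕ} {a : Fin n}
    {z : Finset (Fin n) → A} (hz : z ∈ Cc A Kf i) (h : ∀ T, a ∉ T → Kf T → Kg (insert a T)) :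
    hv a z ∈ Cc A Kg (i + 1) := by
  intro T hT
  unfold hv at hT
  split_ifs at hT with ha
  · have h1 := hz (T.erase a) (fun h => hT (by rw [h, mul_zero]))
    refine ⟨?_, ?_⟩
    · have := h _ (Finset.notMem_erase a T) h1.1
      rwa [Finset.insert_erase ha] at this
    · have h2 := h1.2
      rw [Finset.card_erase_of_mem ha] at h2
      have h3 : 0 < T.card := Finset.card_pos.2 ⟨a, ha⟩
      omega
  · exact absurd rfl hT

theorem cdL_hv {A : Type*} [CommRing A] (a : Fin n) (z : Finset (Fin n) → A)
    (hz : cdL A z = 0) : cdL A (hv a z) = z := by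
  funext T
  have h1 := homotopy a z T
  have h2 : hv a (cd z) T = 0 := by
    have h3 : cd z = 0 := hz
    rw [h3]
    unfold hv
    split_ifs
    · rw [Pi.zero_apply, mul_zero]
    · rfl
  rw [h2, add_zero] at h1
  exact h1

/-- the cycles of a cone -/
theorem lf_cone (k : Type*) [Field k] {Kf : Finset (Fin n) → Prop}
    (hdown : ∀ T j, j ∉ T → Kf (insert j T) → Kf T) (a : Fin n)
    (hc : ∀ T, Kf T → Kf (insert a T)) (i : ℕ) : Lf k Kf i := by
  intro z hz
  refine Bc_le_spn k hdown i ⟨hv a z, hv_mem hz.1 fun T _ => hc T, cdL_hv a z hz.2⟩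

theorem lf_zero (k : Type*) [Field k] (Kf : Finset (Fin n) → Prop) : Lf k Kf 0 := by
  classical
  intro z hz
  by_cases h : z ∅ = 0
  · have h1 : z = 0 := by
      funext T
      by_contra hT
      have h2 := (hz.1 T hT).2
      rw [Finset.card_eq_zero] at h2
      rw [h2] at hT
      exact hT h
    rw [h1]
    exact Submodule.zero_mem _
  · have h1 : z = z ∅ • cst k (Pi.single ∅ (1 : ℤ)) := by
      funext T
      by_cases hT : T = ∅
      · rw [hT, Pi.smul_apply, cst, Pi.single_eq_same, Int.cast_one, smul_eq_mul, mul_one]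
      · rw [Pi.smul_apply, cst, Pi.single_eq_of_ne hT, Int.cast_zero, smul_zero]
        by_contra h2
        exact hT (Finset.card_eq_zero.1 (hz.1 T h2).2)
    rw [h1]
    refine Submodule.smul_mem _ _ (Submodule.subset_span ⟨_, ?_, rfl⟩)
    rw [SetLike.mem_coe, mem_Zc]
    refine ⟨fun T hT => ?_, fun T => ?_⟩
    · have h2 : T = ∅ := by
        by_contra h
        exact hT (Pi.single_eq_of_ne h _)
      rw [h2]
      exact ⟨(hz.1 ∅ h).1, Finset.card_empty⟩
    · unfold cd
      refine Finset.sum_eq_zero fun j _ => ?_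
      rw [Pi.single_eq_of_ne (Finset.insert_ne_empty j T), mul_zero]

/-- a simplex -/
theorem lf_simplex (k : Type*) [Field k] {Kf : Finset (Fin n) → Prop} (W : Finset (Fin n))
    (h : ∀ T, Kf T ↔ T ⊆ W) (i : ℕ) : Lf k Kf i := by
  rcases W.eq_empty_or_nonempty with hW | ⟨j, hj⟩
  · cases i with
    | zero => exact lf_zero k Kf
    | succ i =>
      intro z hz
      have h1 : z = 0 := by
        funext T
        by_contra hT
        have h2 := hz.1 T hT
        rw [h, hW, Finset.subset_empty] at h2
        rw [h2.1, Finset.card_empty] at h2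
        exact absurd h2.2 (by omega)
      rw [h1]
      exact Submodule.zero_mem _
  · refine lf_cone k (fun T j' _ hT => ?_) j (fun T hT => ?_) i
    · rw [h] at hT ⊢
      exact (Finset.subset_insert _ _).trans hT
    · rw [h] at hT ⊢
      exact Finset.insert_subset hj hT

theorem lf_void (k : Type*) [Field k] {Kf : Finset (Fin n) → Prop} (h : ∀ T, ¬ Kf T) (i : ℕ) :
    Lf k Kf i := by
  intro z hz
  have h1 : z = 0 := by
    funext T
    by_contra hT
    exact h T (hz.1 T hT).1
  rw [h1]
  exact Submodule.zero_mem _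

theorem hv_cst (k : Type*) [Field k] (a : Fin n) (z : Finset (Fin n) → ℤ) :
    hv a (cst k z) = cst k (hv a z) := by
  funext T
  unfold hv cst sg
  by_cases h : a ∈ T
  · simp only [if_pos h]
    push_cast
    rfl
  · simp only [if_neg h]
    rw [Int.cast_zero]

/-- `hv b - hv a` -/
def Ph (A : Type*) [CommRing A] (a b : Fin n) :
    (Finset (Fin n) → A) →ₗ[A] (Finset (Fin n) → A) where
  toFun w := hv b w - hv a w
  map_add' w w' := by
    funext T
    simp only [Pi.add_apply, Pi.sub_apply, hv]
    split_ifs <;> ring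
  map_smul' c w := by
    funext T
    simp only [Pi.smul_apply, Pi.sub_apply, hv, RingHom.id_apply, smul_eq_mul]
    split_ifs <;> ring

theorem Ph_apply {A : Type*} [CommRing A] (a b : Fin n) (w : Finset (Fin n) → A) :
    Ph A a b w = hv b w - hv a w := rfl

/-- the link of a vertex -/
def link (Kf : Finset (Fin n) → Prop) (b : Fin n) (T : Finset (Fin n)) : Prop :=
  b ∉ T ∧ Kf (insert b T)

theorem Ph_mem {A : Type*} [CommRing A] {Kf : Finset (Fin n) → Prop}
    (hdown : ∀ T j, j ∉ T → Kf (insert j T) → Kf T) {a b : Fin n}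
    (hc : ∀ T, b ∉ T → Kf T → Kf (insert a T)) {i : ℕ} {w : Finset (Fin n) → A}
    (hw : w ∈ Zc A (link Kf b) i) : Ph A a b w ∈ Zc A Kf (i + 1) := by
  have hw2 : cdL A w = 0 := hw.2
  refine ⟨Submodule.sub_mem _ (hv_mem hw.1 ?_) (hv_mem hw.1 ?_), ?_⟩
  · intro T _ hT
    exact hT.2
  · intro T _ hT
    exact hc T hT.1 (hdown T b hT.1 hT.2)
  · rw [SetLike.mem_coe, LinearMap.mem_ker, Ph_apply, map_sub, cdL_hv _ _ hw2, cdL_hv _ _ hw2,
      sub_self]

/-- **The cycles of a complex whose deletion of `b` is a cone and whose link of `b` is good.** -/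
theorem lf_step (k : Type*) [Field k] {Kf : Finset (Fin n) → Prop}
    (hdown : ∀ T j, j ∉ T → Kf (insert j T) → Kf T) {a b : Fin n} (hab : a ≠ b)
    (hc : ∀ T, b ∉ T → Kf T → Kf (insert a T)) (hl : ∀ i, Lf k (link Kf b) i) (i : ℕ) :
    Lf k Kf i := by
  classical
  cases i with
  | zero => exact lf_zero k Kf
  | succ i =>
    intro z hz
    obtain ⟨w, hw1, hw2⟩ : ∃ w : Finset (Fin n) → k, (∀ T, b ∈ T → w T = 0) ∧
        ∀ T, b ∉ T → w T = sg k b T * z (insert b T) :=
      ⟨fun T => if b ∈ T then 0 else sg k b T * z (insert b T), fun T h => if_pos h,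
        fun T h => if_neg h⟩
    have hz2 : ∀ T, cd z T = 0 := fun T => congrFun (hz.2 : cdL k z = 0) T
    have hw : w ∈ Zc k (link Kf b) i := by
      rw [mem_Zc]
      refine ⟨fun T hT => ?_, fun T => ?_⟩
      · have h1 : b ∉ T := fun h => hT (hw1 T h)
        rw [hw2 T h1] at hT
        have h2 := hz.1 (insert b T) (fun h => hT (by rw [h, mul_zero]))
        rw [Finset.card_insert_of_notMem h1] at h2
        exact ⟨⟨h1, h2.1⟩, by omega⟩
      · by_cases hb : b ∈ T
        · unfold cd
          refine Finset.sum_eq_zero fun j _ => ?_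
          rw [hw1 _ (Finset.mem_insert_of_mem hb), mul_zero]
        · have h1 := hz2 (insert b T)
          have h2 : cd w T = - (sg k b T * cd z (insert b T)) := by
            unfold cd
            have h3 : Tᶜ = insert b (insert b T)ᶜ := by
              rw [Finset.compl_insert, Finset.insert_erase]
              rw [Finset.mem_compl]
              exact hb
            have h3' : b ∉ (insert b T)ᶜ := by
              rw [Finset.mem_compl, not_not]
              exact Finset.mem_insert_self _ _
            rw [h3, Finset.sum_insert h3', hw1 _ (Finset.mem_insert_self _ _), mul_zero, zero_add,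
              Finset.mul_sum, ← Finset.sum_neg_distrib]
            refine Finset.sum_congr rfl fun j hj => ?_
            rw [Finset.mem_compl, Finset.mem_insert, not_or] at hj
            have h4 : b ∉ insert j T := by
              rw [Finset.mem_insert, not_or]
              exact ⟨fun h => hj.1 h.symm, hb⟩
            rw [hw2 _ h4, Finset.insert_comm b j T]
            have h5 := sg_swap (k := k) (i := b) (j := j) (T := T) (fun h => hj.1 h.symm) hb hj.2
            have h6 : sg k j T * sg k b (insert j T) = - (sg k b T * sg k j (insert b T)) :=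
              eq_neg_of_add_eq_zero_left h5
            rw [← mul_assoc, h6]
            ring
          rw [h2, h1, mul_zero, neg_zero]
    have h1 : Ph k a b w ∈ spn k (Zc ℤ Kf (i + 1)) := by
      have h2 := hl i hw
      unfold spn at h2
      have h3 := Submodule.mem_map_of_mem (f := Ph k a b) h2
      rw [Submodule.map_span] at h3
      refine Submodule.span_mono ?_ h3
      rintro _ ⟨_, ⟨u, hu, rfl⟩, rfl⟩
      refine ⟨Ph ℤ a b u, Ph_mem hdown hc hu, ?_⟩
      rw [Ph_apply, Ph_apply, hv_cst, hv_cst]
      funext T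
      simp only [cst, Pi.sub_apply, Int.cast_sub]
    have h2 : z - Ph k a b w ∈ Bc k Kf (i + 1) := by
      have h3 : z - Ph k a b w ∈ Zc k Kf (i + 1) := Submodule.sub_mem _ hz (Ph_mem hdown hc hw)
      refine ⟨hv a (z - Ph k a b w), ?_, cdL_hv _ _ h3.2⟩
      have h4 : z - Ph k a b w ∈ Cc k (fun T => b ∉ T ∧ Kf T) (i + 1) := by
        intro T hT
        refine ⟨⟨fun hb => hT ?_, (h3.1 T hT).1⟩, (h3.1 T hT).2⟩
        rw [Pi.sub_apply, Ph_apply, Pi.sub_apply]
        have h5 : hv b w T = z T := by
          unfold hv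
          rw [if_pos hb, hw2 _ (Finset.notMem_erase b T), Finset.insert_erase hb, ← mul_assoc,
            sg_mul_self, one_mul]
        have h6 : hv a w T = 0 := by
          unfold hv
          split_ifs
          · rw [hw1 _ (Finset.mem_erase.2 ⟨Ne.symm hab, hb⟩), mul_zero]
          · rfl
        rw [h5, h6, sub_zero, sub_self]
      exact hv_mem h4 fun T _ hT => hc T hT.1 hT.2
    have h3 : z = (z - Ph k a b w) + Ph k a b w := by rw [sub_add_cancel]
    rw [h3]
    exact Submodule.add_mem _ (Bc_le_spn k hdown (i + 1) h2) h1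

end Pool.Agent.X317.Pow
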