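import Mathlib
import Pool.Agent.X317.Pow.Lift

/-!
# The real projective plane with six vertices: the mod `2` fundamental cycle is not integral
-/

set_option autoImplicit false
set_option linter.all false

open Finset Pool.Agent.H677R3.EdgeReg Pool.Agent.X317.Cone

namespace Pool.Agent.X317.Pow

/-- the first six variables -/
def YY : Finset (Fin 8) := {0, 1, 2, 3, 4, 5}

/-- the minimal nonfaces of the real projective plane with six vertices -/
def NF : Fin 10 → Finset (Fin 8) :=
  ![{0, 1, 2}, {0, 1, 3}, {0, 2, 4}, {0, 3, 5}, {0, 4, 5}, {1, 2, 5}, {1, 3, 4}, {1, 4, 5},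
    {2, 3, 4}, {2, 3, 5}]

/-- its triangles -/
def TR : Finset (Finset (Fin 8)) :=
  {{3, 4, 5}, {2, 4, 5}, {1, 3, 5}, {1, 2, 4}, {1, 2, 3}, {0, 3, 4}, {0, 2, 5}, {0, 2, 3},
    {0, 1, 5}, {0, 1, 4}}

set_option maxRecDepth 10000 in
theorem NF_card : ∀ t, (NF t).card = 3 := by decide

set_option maxRecDepth 10000 in
theorem NF_sub : ∀ t, NF t ⊆ YY := by decide

set_option maxRecDepth 10000 in
theorem NF_compl : ∀ t, YY \ NF t ∈ TR := by decide

set_option maxRecDepth 10000 in
theorem TR_prop : ∀ T ∈ TR, T.card = 3 ∧ T ⊆ YY ∧ ∃ t, Disjoint (NF t) T := by decide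

set_option maxRecDepth 10000 in
theorem TR_even : ∀ U ∈ powersetCard 2 YY, Even (Uᶜ.filter fun j => insert j U ∈ TR).card := by
  decide

theorem mem_TR {T : Finset (Fin 8)} (h1 : T ⊆ YY) (h2 : T.card = 3)
    (h3 : ∃ t, Disjoint (NF t) T) : T ∈ TR := by
  obtain ⟨t, ht⟩ := h3
  have h4 : T ⊆ YY \ NF t := fun x hx =>
    Finset.mem_sdiff.2 ⟨h1 hx, fun h => Finset.disjoint_left.1 ht h hx⟩
  have h5 : T = YY \ NF t := by
    refine Finset.eq_of_subset_of_card_le h4 ?_
    have h6 := Finset.card_sdiff_add_card_eq_card (NF_sub t)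
    have h7 : YY.card = 6 := by decide
    rw [NF_card, h7] at h6
    omega
  rw [h5]
  exact NF_compl t

theorem rel8 (h : Finset (Fin 8) → ℤ) (hs : ∀ T, h T ≠ 0 → T ∈ TR) (hc : ∀ T, cd h T = 0)
    (U T1 T2 : Finset (Fin 8)) (j1 j2 : Fin 8) (m1 m2 : ℕ) (hj1 : j1 ∉ U) (hj2 : j2 ∉ U)
    (h12 : j1 ≠ j2) (ho : ∀ j ∈ Uᶜ, j ≠ j1 → j ≠ j2 → insert j U ∉ TR) (hT1 : insert j1 U = T1)
    (hT2 : insert j2 U = T2) (hm1 : (U.filter (· < j1)).card = m1)
    (hm2 : (U.filter (· < j2)).card = m2) : (-1) ^ m1 * h T1 + (-1) ^ m2 * h T2 = 0 := by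
  have h2 := hc U
  unfold cd at h2
  have h3 : ∑ j ∈ Uᶜ, sg ℤ j U * h (insert j U) =
      ∑ j ∈ ({j1, j2} : Finset (Fin 8)), sg ℤ j U * h (insert j U) := by
    symm
    refine Finset.sum_subset ?_ ?_
    · intro j hj
      rw [Finset.mem_insert, Finset.mem_singleton] at hj
      rw [Finset.mem_compl]
      rcases hj with rfl | rfl
      · exact hj1
      · exact hj2
    · intro j hj hj'
      rw [Finset.mem_insert, Finset.mem_singleton, not_or] at hj'
      have h4 : h (insert j U) = 0 := by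
        by_contra h5
        exact ho j hj hj'.1 hj'.2 (hs _ h5)
      rw [h4, mul_zero]
  rw [h3, Finset.sum_pair h12, hT1, hT2] at h2
  unfold sg at h2
  rw [hm1, hm2] at h2
  exact h2

set_option maxRecDepth 10000 in
theorem cycle_zero (h : Finset (Fin 8) → ℤ) (hs : ∀ T, h T ≠ 0 → T ∈ TR)
    (hc : ∀ T, cd h T = 0) : h = 0 := by
  have r1 := rel8 h hs hc {4, 5} {2, 4, 5} {3, 4, 5} 2 3 0 0 (by decide) (by decide)
    (by decide) (by decide) (by decide) (by decide) (by decide) (by decide)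
  have r2 := rel8 h hs hc {3, 5} {1, 3, 5} {3, 4, 5} 1 4 0 1 (by decide) (by decide)
    (by decide) (by decide) (by decide) (by decide) (by decide) (by decide)
  have r3 := rel8 h hs hc {3, 4} {0, 3, 4} {3, 4, 5} 0 5 0 2 (by decide) (by decide)
    (by decide) (by decide) (by decide) (by decide) (by decide) (by decide)
  have r4 := rel8 h hs hc {2, 5} {0, 2, 5} {2, 4, 5} 0 4 0 1 (by decide) (by decide)
    (by decide) (by decide) (by decide) (by decide) (by decide) (by decide)
  have r5 := rel8 h hs hc {2, 4} {1, 2, 4} {2, 4, 5} 1 5 0 2 (by decide) (by decide)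
    (by decide) (by decide) (by decide) (by decide) (by decide) (by decide)
  have r6 := rel8 h hs hc {1, 5} {0, 1, 5} {1, 3, 5} 0 3 0 1 (by decide) (by decide)
    (by decide) (by decide) (by decide) (by decide) (by decide) (by decide)
  have r7 := rel8 h hs hc {1, 4} {0, 1, 4} {1, 2, 4} 0 2 0 1 (by decide) (by decide)
    (by decide) (by decide) (by decide) (by decide) (by decide) (by decide)
  have r8 := rel8 h hs hc {1, 3} {1, 2, 3} {1, 3, 5} 2 5 1 2 (by decide) (by decide)
    (by decide) (by decide) (by decide) (by decide) (by decide) (by decide)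
  have r9 := rel8 h hs hc {0, 3} {0, 2, 3} {0, 3, 4} 2 4 1 2 (by decide) (by decide)
    (by decide) (by decide) (by decide) (by decide) (by decide) (by decide)
  have r10 := rel8 h hs hc {1, 2} {1, 2, 3} {1, 2, 4} 3 4 2 2 (by decide) (by decide)
    (by decide) (by decide) (by decide) (by decide) (by decide) (by decide)
  norm_num at r1 r2 r3 r4 r5 r6 r7 r8 r9 r10
  have key : ∀ T ∈ TR, h T = 0 := by
    intro T hT
    simp only [TR, Finset.mem_insert, Finset.mem_singleton] at hT
    rcases hT with rfl | rfl | rfl | rfl | rfl | rfl | rfl | rfl | rfl | rfl <;> omega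
  funext T
  by_contra hT
  exact hT (key T (hs T hT))

/-- **The mod `2` fundamental cycle is not integral.** -/
theorem not_lf {Kf : Finset (Fin 8) → Prop}
    (hK : ∀ T, Kf T ↔ T ⊆ YY ∧ ∃ t, Disjoint (NF t) T) : ¬ Lf (ZMod 2) Kf 3 := by
  intro hL
  let z : Finset (Fin 8) → ZMod 2 := fun T => if T ∈ TR then 1 else 0
  have hz : z ∈ Zc (ZMod 2) Kf 3 := by
    rw [mem_Zc]
    refine ⟨fun T hT => ?_, fun U => ?_⟩
    · have h1 : T ∈ TR := by
        by_contra h
        exact hT (if_neg h)
      obtain ⟨h2, h3, h4⟩ := TR_prop T h1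
      exact ⟨(hK T).2 ⟨h3, h4⟩, h2⟩
    · have h1 : cd z U = (((Uᶜ.filter fun j => insert j U ∈ TR).card : ℕ) : ZMod 2) := by
        unfold cd
        rw [Finset.card_filter, Nat.cast_sum]
        refine Finset.sum_congr rfl fun j _ => ?_
        have h2 : sg (ZMod 2) j U = 1 := by
          unfold sg
          rw [show (-1 : ZMod 2) = 1 by decide, one_pow]
        rw [h2, one_mul]
        simp only [z]
        split_ifs <;> simp
      rw [h1]
      by_cases hU : U ∈ powersetCard 2 YY
      · obtain ⟨m, hm⟩ := TR_even U hU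
        rw [hm, ← two_mul, Nat.cast_mul]
        rw [show ((2 : ℕ) : ZMod 2) = 0 by decide, zero_mul]
      · have h2 : (Uᶜ.filter fun j => insert j U ∈ TR) = ∅ := by
          rw [Finset.filter_eq_empty_iff]
          intro j hj hT
          apply hU
          obtain ⟨h3, h4, -⟩ := TR_prop _ hT
          rw [Finset.card_insert_of_notMem (Finset.mem_compl.1 hj)] at h3
          rw [Finset.mem_powersetCard]
          exact ⟨(Finset.subset_insert _ _).trans h4, by omega⟩
        rw [h2, Finset.card_empty, Nat.cast_zero]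
  have h1 := hL hz
  have h2 : spn (ZMod 2) (Zc ℤ Kf 3) ≤ ⊥ := by
    unfold spn
    rw [Submodule.span_le]
    rintro _ ⟨h, hh, rfl⟩
    rw [SetLike.mem_coe, mem_Zc] at hh
    have h3 : h = 0 := cycle_zero h (fun T hT => by
      obtain ⟨h4, h5⟩ := hh.1 T hT
      rw [hK] at h4
      exact mem_TR h4.1 h5 h4.2) hh.2
    rw [h3, SetLike.mem_coe, Submodule.mem_bot]
    funext T
    simp only [cst, Pi.zero_apply, Int.cast_zero]
  have h3 : z = 0 := (Submodule.mem_bot _).1 (h2 h1)
  have h4 : z {3, 4, 5} = 1 := if_pos (by decide)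
  rw [h3] at h4
  exact absurd h4 (by decide)

end Pool.Agent.X317.Pow
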