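import Mathlib
import Pool.Agent.X317.Pow.Lift

/-!
# Ideals whose slices are simple
-/

set_option autoImplicit false
set_option linter.all false

open Finset Pool.Agent.H677R3.EdgeReg Pool.Agent.X317.Cone

namespace Pool.Agent.X317.Pow

variable {n : ℕ}

/-- the slices of a monomial ideal, for the exponents `a`, `b` of the variables `u`, `v` -/
structure Good (u v : Fin n) (D : ℕ) (G : ℕ → ℕ → (Fin n → ℕ) → Prop) : Prop where
  g0 : ∀ a b c, a + b < D → ¬ G a b c
  g1 : ∀ a b, a + b = D → (∀ c, ¬ G a b c) ∨
    ∃ q : Fin n → ℕ, q u = 0 ∧ q v = 0 ∧ ∀ c, G a b c ↔ q ≤ c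
  g2 : ∀ a b, D < a + b → (∀ c, ¬ G a b c) ∨ ∀ c, G a b c
  g3 : ∀ a b, D < a + b → (∀ c, G a b c) →
    (1 ≤ a ∧ ∀ c, G (a - 1) b c) ∨ (1 ≤ b ∧ ∀ c, G a (b - 1) c)

variable {u v : Fin n} {D : ℕ} {G : ℕ → ℕ → (Fin n → ℕ) → Prop}

theorem Good.symm (H : Good u v D G) : Good v u D (fun a b c => G b a c) := by
  refine ⟨fun a b c h => H.g0 b a c (by omega), fun a b h => ?_, fun a b h => H.g2 b a (by omega),
    fun a b h hc => (H.g3 b a (by omega) hc).symm⟩
  rcases H.g1 b a (by omega) with h1 | ⟨q, h1, h2, h3⟩
  · exact Or.inl h1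
  · exact Or.inr ⟨q, h2, h1, h3⟩

theorem Good.ty (H : Good u v D G) (a b : ℕ) : (∀ c, ¬ G a b c) ∨
    ∃ q : Fin n → ℕ, q u = 0 ∧ q v = 0 ∧ ∀ c, G a b c ↔ q ≤ c := by
  rcases lt_trichotomy (a + b) D with h | h | h
  · exact Or.inl fun c => H.g0 a b c h
  · exact H.g1 a b h
  · rcases H.g2 a b h with h1 | h1
    · exact Or.inl h1
    · refine Or.inr ⟨0, rfl, rfl, fun c => ⟨fun _ j => Nat.zero_le _, fun _ => h1 c⟩⟩

theorem tsub_ind (α : Fin n →₀ ℕ) (T : Finset (Fin n)) (x : Fin n) :
    (α - ind T) x = α x - if x ∈ T then 1 else 0 := by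
  rw [Finsupp.tsub_apply, ind_apply]

theorem le_iff (α : Fin n →₀ ℕ) (T : Finset (Fin n)) : ind T ≤ α ↔ ∀ x ∈ T, 1 ≤ α x := by
  constructor
  · intro h x hx
    have := h x
    rw [ind_apply, if_pos hx] at this
    exact this
  · intro h x
    rw [ind_apply]
    split_ifs with hx
    · exact h x hx
    · exact Nat.zero_le _

theorem lf_of_simplex (k : Type*) [Field k] {K : Finset (Fin n) → Prop} (α : Fin n →₀ ℕ)
    (q : Fin n → ℕ) (hu : q u = 0) (hv : q v = 0)
    (h : ∀ T, K T ↔ u ∉ T ∧ v ∉ T ∧ ind T ≤ α ∧ q ≤ ⇑(α - ind T)) (i : ℕ) : Lf k K i := by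
  classical
  by_cases hq : q ≤ ⇑α
  · refine lf_simplex k (univ.filter fun j => j ≠ u ∧ j ≠ v ∧ q j + 1 ≤ α j) (fun T => ?_) i
    rw [h, le_iff]
    constructor
    · rintro ⟨h1, h2, h3, h4⟩ x hx
      rw [Finset.mem_filter]
      have h5 : q x ≤ (α - ind T) x := h4 x
      rw [tsub_ind, if_pos hx] at h5
      have h6 := h3 x hx
      refine ⟨Finset.mem_univ _, ?_, ?_, by omega⟩
      · rintro rfl
        exact h1 hx
      · rintro rfl
        exact h2 hx
    · intro h1
      refine ⟨fun h2 => (Finset.mem_filter.1 (h1 h2)).2.1 rfl,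
        fun h2 => (Finset.mem_filter.1 (h1 h2)).2.2.1 rfl, fun x hx => ?_, fun x => ?_⟩
      · have := (Finset.mem_filter.1 (h1 hx)).2.2.2
        omega
      · show q x ≤ (α - ind T) x
        rw [tsub_ind]
        split_ifs with hx
        · have := (Finset.mem_filter.1 (h1 hx)).2.2.2
          omega
        · exact hq x
  · refine lf_void k (fun T hT => hq fun x => ?_) i
    have h1 : q x ≤ (α - ind T) x := ((h T).1 hT).2.2.2 x
    rw [tsub_ind] at h1
    show q x ≤ α x
    omega

theorem link_down {Kf : Finset (Fin n) → Prop} (hdown : ∀ T j, j ∉ T → Kf (insert j T) → Kf T)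
    (b : Fin n) (T : Finset (Fin n)) (j : Fin n) (hj : j ∉ T) (h : link Kf b (insert j T)) :
    link Kf b T := by
  obtain ⟨h1, h2⟩ := h
  rw [Finset.mem_insert, not_or] at h1
  refine ⟨h1.2, hdown _ j ?_ ?_⟩
  · rw [Finset.mem_insert, not_or]
    exact ⟨fun h => h1.1 h.symm, hj⟩
  · rw [Finset.insert_comm]
    exact h2

theorem lf_aux (k : Type*) [Field k] (H : Good u v D G) (huv : u ≠ v)
    (hP : ∀ c c' : Fin n → ℕ, G (c u) (c v) c → c ≤ c' → G (c' u) (c' v) c') (α : Fin n →₀ ℕ)
    (hsum : D < α u + α v) (h1 : 1 ≤ α u) (h2 : ∀ c, G (α u - 1) (α v) c) (i : ℕ) :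
    Lf k (KK (fun c => G (c u) (c v) c) α) i := by
  classical
  set P : (Fin n → ℕ) → Prop := fun c => G (c u) (c v) c with hPdef
  have hdown : ∀ T j, j ∉ T → KK P α (insert j T) → KK P α T :=
    fun T j hj h => KK_down hP α T j hj h
  have hKK : ∀ T, KK P α T ↔ (∀ x ∈ T, 1 ≤ α x) ∧
      G (α u - if u ∈ T then 1 else 0) (α v - if v ∈ T then 1 else 0) ⇑(α - ind T) := by
    intro T
    unfold KK
    rw [le_iff, hPdef]
    simp only [tsub_ind]
  refine lf_step k hdown huv ?_ ?_ i
  · intro T hT hKT
    rw [hKK] at hKT ⊢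
    refine ⟨fun x hx => ?_, ?_⟩
    · rcases Finset.mem_insert.1 hx with rfl | hx
      · exact h1
      · exact hKT.1 x hx
    · rw [if_pos (Finset.mem_insert_self _ _), if_neg, Nat.sub_zero]
      · exact h2 _
      · rw [Finset.mem_insert, not_or]
        exact ⟨huv.symm, hT⟩
  · intro i
    by_cases hv0 : α v = 0
    · refine lf_void k (fun T hT => ?_) i
      have := ((hKK _).1 hT.2).1 v (Finset.mem_insert_self _ _)
      omega
    have hL : ∀ T, link (KK P α) v T ↔ v ∉ T ∧ (∀ x ∈ T, 1 ≤ α x) ∧
        G (α u - if u ∈ T then 1 else 0) (α v - 1) ⇑(α - ind (insert v T)) := by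
      intro T
      unfold link
      rw [hKK, if_pos (Finset.mem_insert_self _ _)]
      have h3 : u ∈ insert v T ↔ u ∈ T := by
        rw [Finset.mem_insert]
        exact ⟨fun h => h.resolve_left huv, Or.inr⟩
      simp only [h3]
      constructor
      · rintro ⟨h4, h5, h6⟩
        exact ⟨h4, fun x hx => h5 x (Finset.mem_insert_of_mem hx), h6⟩
      · rintro ⟨h4, h5, h6⟩
        refine ⟨h4, fun x hx => ?_, h6⟩
        rcases Finset.mem_insert.1 hx with rfl | hx
        · omega
        · exact h5 x hx
    have hq : ∀ (q : Fin n → ℕ) (T : Finset (Fin n)) (w : Fin n), q w = 0 →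
        (q ≤ ⇑(α - ind (insert w T)) ↔ q ≤ ⇑(α - ind T)) := by
      intro q T w hw
      refine forall_congr' fun x => ?_
      show q x ≤ (α - ind (insert w T)) x ↔ q x ≤ (α - ind T) x
      rw [tsub_ind, tsub_ind]
      by_cases hx : x = w
      · rw [hx, hw]
        exact ⟨fun _ => Nat.zero_le _, fun _ => Nat.zero_le _⟩
      · simp only [Finset.mem_insert, hx, false_or]
    rcases H.ty (α u) (α v - 1) with h01 | ⟨q, hqu, hqv, h01⟩
    · refine lf_void k (fun T hT => ?_) i
      have h3 : link (KK P α) v (T.erase u) := by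
        by_cases hu : u ∈ T
        · refine link_down hdown v (T.erase u) u (Finset.notMem_erase _ _) ?_
          rw [Finset.insert_erase hu]
          exact hT
        · rw [Finset.erase_eq_of_notMem hu]
          exact hT
      rw [hL, if_neg (Finset.notMem_erase _ _), Nat.sub_zero] at h3
      exact h01 _ h3.2.2
    rcases H.ty (α u - 1) (α v - 1) with h11 | ⟨q', hqu', hqv', h11⟩
    · refine lf_of_simplex (u := u) (v := v) k α q hqu hqv (fun T => ?_) i
      rw [hL, le_iff]
      constructor
      · rintro ⟨h3, h4, h5⟩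
        have hu : u ∉ T := by
          intro hu
          rw [if_pos hu] at h5
          exact h11 _ h5
        rw [if_neg hu, Nat.sub_zero, h01, hq q T v hqv] at h5
        exact ⟨hu, h3, h4, h5⟩
      · rintro ⟨hu, h3, h4, h5⟩
        refine ⟨h3, h4, ?_⟩
        rw [if_neg hu, Nat.sub_zero, h01, hq q T v hqv]
        exact h5
    · have hge : D ≤ α u - 1 + (α v - 1) := by
        by_contra h
        exact H.g0 _ _ q' (by omega) ((h11 q').2 le_rfl)
      have hall : ∀ c, G (α u) (α v - 1) c := by
        rcases H.g2 (α u) (α v - 1) (by omega) with h3 | h3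
        · exact absurd ((h01 q).2 le_rfl) (h3 q)
        · exact h3
      have hLu : ∀ T, u ∉ T → (link (KK P α) v T ↔ v ∉ T ∧ ∀ x ∈ T, 1 ≤ α x) := by
        intro T hu
        rw [hL, if_neg hu, Nat.sub_zero]
        exact ⟨fun h => ⟨h.1, h.2.1⟩, fun h => ⟨h.1, h.2, hall _⟩⟩
      have hLu' : ∀ T, u ∈ T → (link (KK P α) v T ↔
          v ∉ T ∧ (∀ x ∈ T, 1 ≤ α x) ∧ q' ≤ ⇑(α - ind T)) := by
        intro T hu
        rw [hL, if_pos hu, h11, hq q' T v hqv']
      by_cases hq0 : q' = 0
      · refine lf_cone k (link_down hdown v) u (fun T hT => ?_) i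
        by_cases hu : u ∈ T
        · rw [Finset.insert_eq_of_mem hu]
          exact hT
        · rw [hLu T hu] at hT
          rw [hLu' _ (Finset.mem_insert_self _ _)]
          refine ⟨?_, fun x hx => ?_, ?_⟩
          · rw [Finset.mem_insert, not_or]
            exact ⟨huv.symm, hT.1⟩
          · rcases Finset.mem_insert.1 hx with rfl | hx
            · exact h1
            · exact hT.2 x hx
          · rw [hq0]
            exact fun x => Nat.zero_le _
      · obtain ⟨x, hx⟩ : ∃ x, q' x ≠ 0 := by
          by_contra h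
          push Not at h
          exact hq0 (funext h)
        by_cases hW : ∃ j, j ≠ u ∧ j ≠ v ∧ 1 ≤ α j
        · obtain ⟨j, hju, hjv, hj⟩ := hW
          refine lf_step k (link_down hdown v) hju (fun T hT hLT => ?_) (fun i => ?_) i
          · rw [hLu T hT] at hLT
            rw [hLu]
            · refine ⟨?_, fun x hx => ?_⟩
              · rw [Finset.mem_insert, not_or]
                exact ⟨hjv.symm, hLT.1⟩
              · rcases Finset.mem_insert.1 hx with rfl | hx
                · exact hj
                · exact hLT.2 x hx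
            · rw [Finset.mem_insert, not_or]
              exact ⟨hju.symm, hT⟩
          · refine lf_of_simplex (u := u) (v := v) k α q' hqu' hqv' (fun T => ?_) i
            unfold link
            rw [le_iff]
            constructor
            · rintro ⟨h3, h4⟩
              have h5 := (hLu' _ (Finset.mem_insert_self _ _)).1 h4
              rw [hq q' T u hqu'] at h5
              refine ⟨h3, fun h => h5.1 (Finset.mem_insert_of_mem h),
                fun x hx => h5.2.1 x (Finset.mem_insert_of_mem hx), h5.2.2⟩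
            · rintro ⟨h3, h4, h5, h6⟩
              refine ⟨h3, (hLu' _ (Finset.mem_insert_self _ _)).2 ⟨?_, fun x hx => ?_, ?_⟩⟩
              · rw [Finset.mem_insert, not_or]
                exact ⟨huv.symm, h4⟩
              · rcases Finset.mem_insert.1 hx with rfl | hx
                · exact h1
                · exact h5 x hx
              · rw [hq q' T u hqu']
                exact h6
        · refine lf_simplex k ∅ (fun T => ?_) i
          constructor
          · intro hT y hy
            exfalso
            by_cases hyu : y = u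
            · rw [hyu] at hy
              have h3 := (hLu' T hy).1 hT
              apply hW
              have h4 : q' x ≤ (α - ind T) x := h3.2.2 x
              rw [tsub_ind] at h4
              refine ⟨x, ?_, ?_, by omega⟩
              · rintro rfl
                exact hx hqu'
              · rintro rfl
                exact hx hqv'
            · have h3 := (hL T).1 hT
              refine hW ⟨y, hyu, ?_, h3.2.1 y hy⟩
              rintro rfl
              exact h3.1 hy
          · intro hT
            rw [Finset.subset_empty] at hT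
            rw [hT, hLu ∅ (Finset.notMem_empty _)]
            exact ⟨Finset.notMem_empty _, fun x hx => absurd hx (Finset.notMem_empty _)⟩

/-- **The cycles are integral for an ideal with simple slices.** -/
theorem lf_two (k : Type*) [Field k] (H : Good u v D G) (huv : u ≠ v)
    (hP : ∀ c c' : Fin n → ℕ, G (c u) (c v) c → c ≤ c' → G (c' u) (c' v) c') (α : Fin n →₀ ℕ)
    (i : ℕ) : Lf k (KK (fun c => G (c u) (c v) c) α) i := by
  classical
  have hdown : ∀ T j, j ∉ T → KK (fun c => G (c u) (c v) c) α (insert j T) →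
      KK (fun c => G (c u) (c v) c) α T := fun T j hj h => KK_down hP α T j hj h
  have hKK : ∀ T, KK (fun c => G (c u) (c v) c) α T ↔ (∀ x ∈ T, 1 ≤ α x) ∧
      G (α u - if u ∈ T then 1 else 0) (α v - if v ∈ T then 1 else 0) ⇑(α - ind T) := by
    intro T
    unfold KK
    rw [le_iff]
    simp only [tsub_ind]
  rcases lt_trichotomy (α u + α v) D with h | h | h
  · refine lf_void k (fun T hT => ?_) i
    exact H.g0 _ _ _ (by omega) ((hKK T).1 hT).2
  · have h1 : ∀ T, KK (fun c => G (c u) (c v) c) α T → u ∉ T ∧ v ∉ T := by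
      intro T hT
      rw [hKK] at hT
      constructor
      · intro hu
        have := hT.1 u hu
        rw [if_pos hu] at hT
        exact H.g0 _ _ _ (by omega) hT.2
      · intro hv
        have := hT.1 v hv
        rw [if_pos hv] at hT
        exact H.g0 _ _ _ (by omega) hT.2
    rcases H.g1 _ _ h with h2 | ⟨q, hqu, hqv, h2⟩
    · refine lf_void k (fun T hT => ?_) i
      have h3 := h1 T hT
      rw [hKK, if_neg h3.1, if_neg h3.2] at hT
      exact h2 _ hT.2
    · refine lf_of_simplex (u := u) (v := v) k α q hqu hqv (fun T => ?_) i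
      constructor
      · intro hT
        have h3 := h1 T hT
        rw [hKK, if_neg h3.1, if_neg h3.2, Nat.sub_zero, Nat.sub_zero, h2] at hT
        exact ⟨h3.1, h3.2, (le_iff _ _).2 hT.1, hT.2⟩
      · rintro ⟨h3, h4, h5, h6⟩
        rw [hKK, if_neg h3, if_neg h4, Nat.sub_zero, Nat.sub_zero, h2]
        exact ⟨(le_iff _ _).1 h5, h6⟩
  · rcases H.g2 _ _ h with h2 | h2
    · refine lf_void k (fun T hT => ?_) i
      have h3 : ∀ S : Finset (Fin n), KK (fun c => G (c u) (c v) c) α S → False := by
        intro S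
        induction S using Finset.induction_on with
        | empty =>
          intro hS
          rw [hKK, if_neg (Finset.notMem_empty _), if_neg (Finset.notMem_empty _)] at hS
          exact h2 _ hS.2
        | insert j S hj ih =>
          intro hS
          exact ih (hdown S j hj hS)
      exact h3 T hT
    · rcases H.g3 _ _ h h2 with ⟨h3, h4⟩ | ⟨h3, h4⟩
      · exact lf_aux k H huv hP α h h3 h4 i
      · exact lf_aux k H.symm huv.symm hP α (by omega) h3 h4 i

end Pool.Agent.X317.Pow
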