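import Mathlib
import Pool.Agent.X317.Pow.Numbers
import Pool.Agent.X317.Pow.Two
import Pool.Agent.X317.Pow.Plane
import Pool.Agent.X317.Kos.Mon

/-!
# The ideal
-/

set_option autoImplicit false
set_option linter.all false

open Finset MvPolynomial Pool.Agent.H677R3.EdgeReg Pool.Agent.X317.Cone Pool.Agent.X317.Kos

namespace Pool.Agent.X317.Pow

section sums

variable {n : ℕ}

/-- the sums of `m` exponents -/
def SumG (G : Set (Fin n →₀ ℕ)) : ℕ → Set (Fin n →₀ ℕ)
  | 0 => {0}
  | m + 1 => {f | ∃ e ∈ G, ∃ f' ∈ SumG G m, f = e + f'}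

theorem pow_span (k : Type*) [CommRing k] (G : Finset (Fin n →₀ ℕ)) (m : ℕ) :
    monIdeal k G ^ m = Ideal.span ((fun e => monomial e (1 : k)) '' SumG (G : Set (Fin n →₀ ℕ)) m) := by
  induction m with
  | zero =>
    rw [pow_zero, SumG, Set.image_singleton, Ideal.one_eq_top, eq_comm, Ideal.eq_top_iff_one]
    exact Ideal.subset_span rfl
  | succ m ih =>
    rw [pow_succ', ih, monIdeal, Ideal.span_mul_span']
    congr 1
    ext f
    constructor
    · rintro ⟨_, ⟨a, ha, rfl⟩, _, ⟨b, hb, rfl⟩, rfl⟩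
      exact ⟨a + b, ⟨a, ha, b, hb, rfl⟩, by simp only [monomial_mul, mul_one]⟩
    · rintro ⟨_, ⟨a, ha, b, hb, rfl⟩, rfl⟩
      exact ⟨_, ⟨a, ha, rfl⟩, _, ⟨b, hb, rfl⟩, by simp only [monomial_mul, mul_one]⟩

theorem mem_pow (k : Type*) [Field k] (G : Finset (Fin n →₀ ℕ)) (m : ℕ)
    (p : MvPolynomial (Fin n) k) : p ∈ monIdeal k G ^ m ↔
      ∀ c ∈ p.support, ∃ f ∈ SumG (G : Set (Fin n →₀ ℕ)) m, f ≤ c := by
  rw [pow_span, mem_ideal_span_monomial_image]

end sums

variable {h : ℕ}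

/-- the degree in the last two variables -/
def dd (h : ℕ) : ℕ := place h 0 + 2

/-- an exponent -/
noncomputable def ex (h a : ℕ) (N : Finset (Fin 8)) : Fin 8 →₀ ℕ :=
  ind N + (Finsupp.single 6 a + Finsupp.single 7 (dd h - a))

/-- the exponents of the pure generators -/
def expSet (h : ℕ) : Finset ℕ :=
  univ.image (step h) ∪ (univ.image (fun t => place h t + 1) ∪
    (univ.image (fun t => place h t + 2) ∪ (univ.image (fun t => place h t - 1) ∪
      univ.image (fun t => place h t - 2))))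

theorem place_ge_two (hh : 1 ≤ h) (t : Fin 10) : 3 ≤ place h t := by
  have h1 := place_ge hh t
  have h2 := place_zero (h := h)
  omega

theorem mem_expSet (hh : 1 ≤ h) {a : ℕ} : a ∈ expSet h ↔ IsExp h a := by
  unfold expSet IsExp
  simp only [Finset.mem_union, Finset.mem_image, Finset.mem_univ, true_and]
  constructor
  · rintro (⟨t, rfl⟩ | ⟨t, rfl⟩ | ⟨t, rfl⟩ | ⟨t, rfl⟩ | ⟨t, rfl⟩)
    · exact Or.inl ⟨t, rfl⟩
    · exact Or.inr ⟨t, by omega⟩
    · exact Or.inr ⟨t, by omega⟩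
    · have := place_ge_two hh t
      exact Or.inr ⟨t, by omega⟩
    · have := place_ge_two hh t
      exact Or.inr ⟨t, by omega⟩
  · rintro (⟨t, rfl⟩ | ⟨t, ht⟩)
    · exact Or.inl ⟨t, rfl⟩
    · have := place_ge_two hh t
      rcases ht with ht | ht | ht | ht
      · exact Or.inr (Or.inl ⟨t, by omega⟩)
      · exact Or.inr (Or.inr (Or.inl ⟨t, by omega⟩))
      · exact Or.inr (Or.inr (Or.inr (Or.inl ⟨t, by omega⟩)))
      · exact Or.inr (Or.inr (Or.inr (Or.inr ⟨t, by omega⟩)))

open Classical in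
/-- the exponents of the generators -/
noncomputable def gens (h : ℕ) : Finset (Fin 8 →₀ ℕ) :=
  (expSet h).image (fun a => ex h a ∅) ∪ univ.image (fun t => ex h (place h t) (NF t))

theorem mem_gens (hh : 1 ≤ h) {e : Fin 8 →₀ ℕ} : e ∈ gens h ↔
    (∃ a, IsExp h a ∧ e = ex h a ∅) ∨ ∃ t, e = ex h (place h t) (NF t) := by
  classical
  unfold gens
  rw [Finset.mem_union, Finset.mem_image, Finset.mem_image]
  constructor
  · rintro (⟨a, ha, rfl⟩ | ⟨t, -, rfl⟩)
    · exact Or.inl ⟨a, (mem_expSet hh).1 ha, rfl⟩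
    · exact Or.inr ⟨t, rfl⟩
  · rintro (⟨a, ha, rfl⟩ | ⟨t, rfl⟩)
    · exact Or.inl ⟨a, (mem_expSet hh).2 ha, rfl⟩
    · exact Or.inr ⟨t, Finset.mem_univ _, rfl⟩

theorem six_notMem (t : Fin 10) : (6 : Fin 8) ∉ NF t ∧ (7 : Fin 8) ∉ NF t := by
  revert t
  decide

theorem ex_six {a : ℕ} {N : Finset (Fin 8)} (hN : (6 : Fin 8) ∉ N) : ex h a N 6 = a := by
  unfold ex
  rw [Finsupp.add_apply, Finsupp.add_apply, ind_apply, if_neg hN, Finsupp.single_eq_same,
    Finsupp.single_eq_of_ne (by decide), zero_add, add_zero]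

theorem ex_seven {a : ℕ} {N : Finset (Fin 8)} (hN : (7 : Fin 8) ∉ N) : ex h a N 7 = dd h - a := by
  unfold ex
  rw [Finsupp.add_apply, Finsupp.add_apply, ind_apply, if_neg hN, Finsupp.single_eq_same,
    Finsupp.single_eq_of_ne (by decide), zero_add, zero_add]

theorem ex_mem {a : ℕ} {N : Finset (Fin 8)} {x : Fin 8} (hx : x ∈ N) : 1 ≤ ex h a N x := by
  unfold ex
  rw [Finsupp.add_apply, ind_apply, if_pos hx]
  omega

theorem isExp_le (hh : 1 ≤ h) {a : ℕ} (ha : IsExp h a) : a ≤ dd h := by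
  have h1 := SA_le hh (m := 1) (w := a) ⟨a, 0, ha, rfl, rfl⟩
  unfold dd
  omega

/-- the slices -/
def Gs (h m a b : ℕ) (c : Fin 8 → ℕ) : Prop :=
  ∃ s, s ≤ a ∧ m * dd h ≤ b + s ∧ (SA h m s ∨
    ∃ t m' w, m = m' + 1 ∧ SA h m' w ∧ s = place h t + w ∧ ∀ x ∈ NF t, 1 ≤ c x)

theorem normal (hh : 1 ≤ h) {m : ℕ} {f : Fin 8 →₀ ℕ}
    (hf : f ∈ SumG (gens h : Set (Fin 8 →₀ ℕ)) m) :
    f 6 + f 7 = m * dd h ∧ (SA h m (f 6) ∨
      ∃ t m' w, m = m' + 1 ∧ SA h m' w ∧ f 6 = place h t + w ∧ ∀ x ∈ NF t, 1 ≤ f x) := by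
  induction m generalizing f with
  | zero =>
    have h1 : f = 0 := hf
    rw [h1]
    exact ⟨by simp, Or.inl rfl⟩
  | succ m ih =>
    obtain ⟨e, he, f', hf', rfl⟩ := hf
    obtain ⟨h1, h2⟩ := ih hf'
    have hm : (m + 1) * dd h = m * dd h + dd h := by ring
    rcases (mem_gens hh).1 he with ⟨a, ha, rfl⟩ | ⟨t, rfl⟩
    · have hle := isExp_le hh ha
      rw [Finsupp.add_apply, Finsupp.add_apply, ex_six (Finset.notMem_empty _),
        ex_seven (Finset.notMem_empty _)]
      refine ⟨by omega, ?_⟩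
      rcases h2 with h2 | ⟨t, m', w, h3, h4, h5, h6⟩
      · exact Or.inl ⟨a, f' 6, ha, h2, rfl⟩
      · refine Or.inr ⟨t, m, a + w, rfl, ?_, by omega, fun x hx => ?_⟩
        · rw [h3]
          exact ⟨a, w, ha, h4, rfl⟩
        · have := h6 x hx
          rw [Finsupp.add_apply]
          omega
    · have hle : place h t ≤ dd h := by
        have := place_le (h := h) t
        unfold dd
        omega
      rw [Finsupp.add_apply, Finsupp.add_apply, ex_six (six_notMem t).1, ex_seven (six_notMem t).2]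
      refine ⟨by omega, ?_⟩
      rcases h2 with h2 | ⟨t', m', w, h3, h4, h5, h6⟩
      · refine Or.inr ⟨t, m, f' 6, rfl, h2, rfl, fun x hx => ?_⟩
        have : 1 ≤ ex h (place h t) (NF t) x := ex_mem hx
        rw [Finsupp.add_apply]
        omega
      · left
        have h7 := place_ge_two hh t'
        refine ⟨place h t + 1, place h t' - 1 + w, Or.inr ⟨t, Or.inl rfl⟩, ?_, by omega⟩
        rw [h3]
        exact ⟨place h t' - 1, w, Or.inr ⟨t', by omega⟩, h4, rfl⟩

theorem SA_mem (hh : 1 ≤ h) {m s : ℕ} (hs : SA h m s) :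
    (Finsupp.single 6 s + Finsupp.single 7 (m * dd h - s) : Fin 8 →₀ ℕ) ∈
      SumG (gens h : Set (Fin 8 →₀ ℕ)) m := by
  induction m generalizing s with
  | zero =>
    have h1 : s = 0 := hs
    rw [h1, zero_mul, Nat.sub_zero, Finsupp.single_zero, Finsupp.single_zero, add_zero]
    rfl
  | succ m ih =>
    obtain ⟨a, x, ha, hx, rfl⟩ := hs
    refine ⟨ex h a ∅, (mem_gens hh).2 (Or.inl ⟨a, ha, rfl⟩), _, ih hx, ?_⟩
    have h1 := isExp_le hh ha
    have h2 : x ≤ m * dd h := SA_le hh hx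
    have h3 : (m + 1) * dd h - (a + x) = (dd h - a) + (m * dd h - x) := by
      have hm : (m + 1) * dd h = m * dd h + dd h := by ring
      omega
    have h4 : ind (∅ : Finset (Fin 8)) = 0 := by
      ext v
      rw [ind_apply, if_neg (Finset.notMem_empty _), Finsupp.zero_apply]
    unfold ex
    rw [h3, h4, zero_add, Finsupp.single_add, Finsupp.single_add]
    abel

theorem P_iff (hh : 1 ≤ h) (m : ℕ) (c : Fin 8 →₀ ℕ) :
    (∃ f ∈ SumG (gens h : Set (Fin 8 →₀ ℕ)) m, f ≤ c) ↔ Gs h m (c 6) (c 7) ⇑c := by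
  constructor
  · rintro ⟨f, hf, hfc⟩
    obtain ⟨h1, h2⟩ := normal hh hf
    have h6 := hfc 6
    have h7 := hfc 7
    refine ⟨f 6, h6, by omega, ?_⟩
    rcases h2 with h2 | ⟨t, m', w, h3, h4, h5, h8⟩
    · exact Or.inl h2
    · exact Or.inr ⟨t, m', w, h3, h4, h5, fun x hx => (h8 x hx).trans (hfc x)⟩
  · rintro ⟨s, h1, h2, h3⟩
    rcases h3 with h3 | ⟨t, m', w, h3, h4, h5, h8⟩
    · refine ⟨_, SA_mem hh h3, fun x => ?_⟩
      rw [Finsupp.add_apply, Finsupp.single_apply, Finsupp.single_apply]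
      by_cases hx6 : (6 : Fin 8) = x
      · rw [if_pos hx6, if_neg (by rw [← hx6]; decide), ← hx6]
        omega
      · rw [if_neg hx6]
        by_cases hx7 : (7 : Fin 8) = x
        · rw [if_pos hx7, ← hx7]
          omega
        · rw [if_neg hx7]
          omega
    · subst h3
      refine ⟨ex h (place h t) (NF t) +
        (Finsupp.single 6 w + Finsupp.single 7 (m' * dd h - w)),
        ⟨_, (mem_gens hh).2 (Or.inr ⟨t, rfl⟩), _, SA_mem hh h4, rfl⟩, fun x => ?_⟩
      have h9 : w ≤ m' * dd h := SA_le hh h4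
      have h10 : place h t ≤ dd h := by
        have := place_le (h := h) t
        unfold dd
        omega
      have hm : (m' + 1) * dd h = m' * dd h + dd h := by ring
      by_cases hx6 : x = 6
      · rw [hx6, Finsupp.add_apply, ex_six (six_notMem t).1, Finsupp.add_apply,
          Finsupp.single_eq_same, Finsupp.single_eq_of_ne (by decide)]
        omega
      · by_cases hx7 : x = 7
        · rw [hx7, Finsupp.add_apply, ex_seven (six_notMem t).2, Finsupp.add_apply,
            Finsupp.single_eq_same, Finsupp.single_eq_of_ne (by decide)]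
          omega
        · unfold ex
          rw [Finsupp.add_apply, Finsupp.add_apply, Finsupp.add_apply, Finsupp.add_apply,
            Finsupp.single_eq_of_ne hx6, Finsupp.single_eq_of_ne hx7,
            Finsupp.single_eq_of_ne hx6, Finsupp.single_eq_of_ne hx7, ind_apply]
          split_ifs with hx
          · have := h8 x hx
            omega
          · omega

theorem mem_iff (k : Type*) [Field k] (hh : 1 ≤ h) (m : ℕ) (p : MvPolynomial (Fin 8) k) :
    p ∈ monIdeal k (gens h) ^ m ↔ ∀ c ∈ p.support, (fun c : Fin 8 → ℕ => Gs h m (c 6) (c 7) c) ⇑c := by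
  rw [mem_pow]
  exact forall₂_congr fun c _ => P_iff hh m c

theorem Gs_mono (m : ℕ) (c c' : Fin 8 → ℕ) (hc : Gs h m (c 6) (c 7) c) (hcc : c ≤ c') :
    Gs h m (c' 6) (c' 7) c' := by
  obtain ⟨s, h1, h2, h3⟩ := hc
  have h6 : c 6 ≤ c' 6 := hcc 6
  have h7 : c 7 ≤ c' 7 := hcc 7
  refine ⟨s, h1.trans h6, h2.trans (by omega), h3.imp id ?_⟩
  rintro ⟨t, m', w, e1, e2, e3, e4⟩
  exact ⟨t, m', w, e1, e2, e3, fun x hx => (e4 x hx).trans (hcc x)⟩

/-- the isolated holes -/
theorem Gs_pure (hh : 1 ≤ h) {m a b : ℕ} (hab : m * dd h < a + b) {c : Fin 8 → ℕ}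
    (hc : Gs h m a b c) : ∃ s, s ≤ a ∧ m * dd h ≤ b + s ∧ SA h m s := by
  obtain ⟨s, h1, h2, h3⟩ := hc
  rcases h3 with h3 | ⟨t, m', w, h3, h4, h5, h8⟩
  · exact ⟨s, h1, h2, h3⟩
  · have h9 := place_ge_two hh t
    by_cases h6 : s + 1 ≤ a
    · refine ⟨s + 1, h6, by omega, ?_⟩
      rw [h3]
      exact ⟨place h t + 1, w, Or.inr ⟨t, Or.inl rfl⟩, h4, by omega⟩
    · refine ⟨s - 1, by omega, by omega, ?_⟩
      rw [h3]
      exact ⟨place h t - 1, w, Or.inr ⟨t, by omega⟩, h4, by omega⟩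

/-- **The slices of the powers below `h` are simple.** -/
theorem good (hh : 1 ≤ h) {m : ℕ} (hm : m < h) :
    Good (6 : Fin 8) 7 (m * dd h) (Gs h m) := by
  classical
  refine ⟨?_, ?_, ?_, ?_⟩
  · rintro a b c hab ⟨s, h1, h2, -⟩
    omega
  · intro a b hab
    by_cases hSA : SA h m a
    · refine Or.inr ⟨0, rfl, rfl, fun c => ⟨fun _ x => Nat.zero_le _, fun _ => ?_⟩⟩
      exact ⟨a, le_rfl, by omega, Or.inl hSA⟩
    by_cases hex : ∃ t m' w, m = m' + 1 ∧ SA h m' w ∧ a = place h t + w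
    · obtain ⟨t, m', w, h1, h2, h3⟩ := hex
      refine Or.inr ⟨fun x => if x ∈ NF t then 1 else 0, if_neg (six_notMem t).1,
        if_neg (six_notMem t).2, fun c => ⟨?_, fun hc => ?_⟩⟩
      · rintro ⟨s, e1, e2, e3⟩
        have hs : s = a := by omega
        subst hs
        rcases e3 with e3 | ⟨t', m'', w', e3, e4, e5, e6⟩
        · exact absurd e3 hSA
        · have hm' : m'' = m' := by omega
          subst hm'
          have htt : t' = t := by
            by_contra hne
            apply hSA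
            rw [e5, h1]
            exact coincide hh (by omega) e4 h2 hne (by omega)
          intro x
          show (if x ∈ NF t then 1 else 0) ≤ c x
          split_ifs with hx
          · exact e6 x (by rw [htt]; exact hx)
          · exact Nat.zero_le _
      · refine ⟨a, le_rfl, by omega, Or.inr ⟨t, m', w, h1, h2, h3, fun x hx => ?_⟩⟩
        have h4 : (if x ∈ NF t then 1 else 0) ≤ c x := hc x
        rwa [if_pos hx] at h4
    · left
      rintro c ⟨s, e1, e2, e3⟩
      have hs : s = a := by omega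
      subst hs
      rcases e3 with e3 | ⟨t', m'', w', e3, e4, e5, e6⟩
      · exact hSA e3
      · exact hex ⟨t', m'', w', e3, e4, e5⟩
  · intro a b hab
    by_cases hex : ∃ c, Gs h m a b c
    · obtain ⟨c, hc⟩ := hex
      obtain ⟨s, h1, h2, h3⟩ := Gs_pure hh hab hc
      exact Or.inr fun c' => ⟨s, h1, h2, Or.inl h3⟩
    · left
      intro c hc
      exact hex ⟨c, hc⟩
  · intro a b hab hc
    obtain ⟨s, h1, h2, h3⟩ := Gs_pure hh hab (hc 0)
    have h4 : s ≤ m * dd h := SA_le hh h3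
    by_cases h5 : s + 1 ≤ a
    · exact Or.inl ⟨by omega, fun c' => ⟨s, by omega, h2, Or.inl h3⟩⟩
    · exact Or.inr ⟨by omega, fun c' => ⟨s, h1, by omega, Or.inl h3⟩⟩

/-- **The powers below `h` have field-independent Betti numbers.** -/
theorem independent (hh : 1 ≤ h) {m : ℕ} (hm : m < h) (k : Type) [Field k] (i j : ℕ) :
    gbetti (monIdeal k (gens h) ^ m) i j = gbetti (monIdeal ℚ (gens h) ^ m) i j :=
  gbetti_of_lf (P := fun c : Fin 8 → ℕ => Gs h m (c 6) (c 7) c) (Gs_mono m) (mem_iff k hh m)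
    (mem_iff ℚ hh m) (fun α i => lf_two k (good hh hm) (by decide) (Gs_mono m) α i) i j

/-- the multidegree -/
noncomputable def deg (h m : ℕ) : Fin 8 →₀ ℕ :=
  ind YY + (Finsupp.single 6 (place h 0) + Finsupp.single 7 (m * dd h - place h 0))

/-- **The powers from `h` on have field-dependent Betti numbers.** -/
theorem dependent (hh : 1 ≤ h) {m : ℕ} (hm : h ≤ m) :
    ∃ i j, gbetti (monIdeal (ZMod 2) (gens h) ^ m) i j ≠
      gbetti (monIdeal ℚ (gens h) ^ m) i j := by
  by_contra hcon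
  push Not at hcon
  have h1 := lf_of_gbetti (P := fun c : Fin 8 → ℕ => Gs h m (c 6) (c 7) c) (Gs_mono m)
    (mem_iff (ZMod 2) hh m) (mem_iff ℚ hh m) hcon (deg h m) 3
  refine not_lf (fun T => ?_) h1
  have hple : place h 0 + 2 ≤ m * dd h := by
    have h2 : 1 * dd h ≤ m * dd h := Nat.mul_le_mul_right _ (by omega)
    rw [one_mul] at h2
    exact h2
  have hp0 := place_ge_two hh 0
  have d6 : deg h m 6 = place h 0 := by
    unfold deg
    rw [Finsupp.add_apply, Finsupp.add_apply, ind_apply, if_neg (by decide),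
      Finsupp.single_eq_same, Finsupp.single_eq_of_ne (by decide), zero_add, add_zero]
  have d7 : deg h m 7 = m * dd h - place h 0 := by
    unfold deg
    rw [Finsupp.add_apply, Finsupp.add_apply, ind_apply, if_neg (by decide),
      Finsupp.single_eq_same, Finsupp.single_eq_of_ne (by decide), zero_add, zero_add]
  have dY : ∀ x ∈ YY, deg h m x = 1 := by
    intro x hx
    have hx6 : x ≠ 6 := by rintro rfl; exact absurd hx (by decide)
    have hx7 : x ≠ 7 := by rintro rfl; exact absurd hx (by decide)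
    unfold deg
    rw [Finsupp.add_apply, Finsupp.add_apply, ind_apply, if_pos hx,
      Finsupp.single_eq_of_ne hx6, Finsupp.single_eq_of_ne hx7, add_zero, add_zero]
  have hYY : ∀ x : Fin 8, x ≠ 6 → x ≠ 7 → x ∈ YY := by decide
  unfold KK
  rw [le_iff]
  constructor
  · rintro ⟨h2, s, h3, h4, h5⟩
    rw [tsub_ind] at h3 h4
    rw [d6] at h3
    rw [d7] at h4
    have h6 : (6 : Fin 8) ∉ T := by
      intro h6
      rw [if_pos h6] at h3
      omega
    have h7 : (7 : Fin 8) ∉ T := by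
      intro h7
      rw [if_pos h7] at h4
      rw [if_neg h6] at h3
      omega
    rw [if_neg h6] at h3
    rw [if_neg h7] at h4
    have hs : s = place h 0 := by omega
    subst hs
    refine ⟨fun x hx => hYY x (fun h => h6 (h ▸ hx)) (fun h => h7 (h ▸ hx)), ?_⟩
    rcases h5 with h5 | ⟨t, m', w, e1, e2, e3, e4⟩
    · exact absurd h5 (hole hh m)
    · refine ⟨t, Finset.disjoint_left.2 fun x hx hxT => ?_⟩
      have h8 : 1 ≤ (deg h m - ind T) x := e4 x hx
      rw [tsub_ind, if_pos hxT, dY x (NF_sub t hx)] at h8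
      omega
  · rintro ⟨h2, t, h3⟩
    refine ⟨fun x hx => (dY x (h2 hx)).ge, place h 0, ?_, ?_, Or.inr ⟨t, m - 1,
      (h - 1) * step h t, by omega, ?_, ?_, fun x hx => ?_⟩⟩
    · rw [tsub_ind, d6, if_neg, Nat.sub_zero]
      intro h6
      exact absurd (h2 h6) (by decide)
    · rw [tsub_ind, d7, if_neg, Nat.sub_zero]
      · omega
      · intro h7
        exact absurd (h2 h7) (by decide)
    · have h4 := SA_add (SA_zero (h := h) (m - h)) (SA_mul (h := h) t (h - 1))
      have h5 : h - 1 + (m - h) = m - 1 := by omega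
      rw [h5, add_zero] at h4
      exact h4
    · rw [place_zero]
      exact (place_add hh t).symm
    · show 1 ≤ (deg h m - ind T) x
      rw [tsub_ind, dY x (NF_sub t hx), if_neg (Finset.disjoint_left.1 h3 hx)]

end Pool.Agent.X317.Pow
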